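import Pool.Agent.V11121.Rat.Lym
import Pool.Agent.V11121.Rat.Kara

/-!
# The maximum number of `r`-subsets with rational sum in a set of `n` irrational numbers
-/

set_option autoImplicit false

namespace Pool.Agent.Results.MP_604c02_co.RationalSums

open V11121.Rat Finset

/-- The number of `r`-element subsets of `A` whose sum is rational. -/
noncomputable def ratCount (A : Finset ℝ) (r : ℕ) : ℕ :=
  Set.ncard {B : Finset ℝ | B ⊆ A ∧ B.card = r ∧ ∃ q : ℚ, ∑ b ∈ B, b = (q : ℝ)}

theorem finite_set (A : Finset ℝ) (r : ℕ) :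
    {B : Finset ℝ | B ⊆ A ∧ B.card = r ∧ ∃ q : ℚ, ∑ b ∈ B, b = (q : ℝ)}.Finite :=
  (A.powerset.finite_toSet).subset fun B hB => by
    rw [Finset.mem_coe, Finset.mem_powerset]
    exact hB.1

/-- A `ℚ`-linear functional that kills the rationals and no member of `A`. -/
theorem exists_functional (A : Finset ℝ) (hA : ∀ a ∈ A, Irrational a) :
    ∃ f : ℝ →ₗ[ℚ] ℚ, (∀ q : ℚ, f (q : ℝ) = 0) ∧ ∀ a ∈ A, f a ≠ 0 := by
  let S : Submodule ℚ ℝ := Submodule.span ℚ {(1 : ℝ)}
  obtain ⟨g, hg⟩ := Module.exists_dual_forall_apply_ne_zero (K := ℚ)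
    (fun a : A => (Submodule.Quotient.mk (a : ℝ) : ℝ ⧸ S)) (by
      intro a h
      rw [Submodule.Quotient.mk_eq_zero, Submodule.mem_span_singleton] at h
      obtain ⟨q, hq⟩ := h
      apply hA a a.2
      refine ⟨q, ?_⟩
      rw [← hq, Rat.smul_def, mul_one])
  refine ⟨g.comp S.mkQ, ?_, ?_⟩
  · intro q
    have : S.mkQ (q : ℝ) = 0 := by
      rw [Submodule.mkQ_apply, Submodule.Quotient.mk_eq_zero, Submodule.mem_span_singleton]
      exact ⟨q, by rw [Rat.smul_def, mul_one]⟩
    rw [LinearMap.comp_apply, this, map_zero]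
  · intro a ha
    exact hg ⟨a, ha⟩

theorem upper (n r : ℕ) (hr : 1 < r) (A : Finset ℝ) (hn : A.card = n)
    (hA : ∀ a ∈ A, Irrational a) :
    ratCount A r ≤ (n - n / r).choose (r - 1) * (n / r) := by
  classical
  obtain ⟨f, hf0, hfA⟩ := exists_functional A hA
  let N := A.filter (fun a => f a < 0)
  let P := A.filter (fun a => 0 < f a)
  have hNP : N.card + P.card = n := by
    rw [← hn, ← card_union_of_disjoint]
    · congr 1
      ext a
      simp only [N, P, mem_union, mem_filter]
      constructor
      · rintro (h | h)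
        · exact h.1
        · exact h.1
      · intro h
        rcases lt_or_gt_of_ne (hfA a h) with h' | h'
        · exact Or.inl ⟨h, h'⟩
        · exact Or.inr ⟨h, h'⟩
    · rw [disjoint_left]
      intro a h1 h2
      have h3 := (mem_filter.1 h1).2
      have h4 := (mem_filter.1 h2).2
      exact absurd h3 (not_lt.2 h4.le)
  have hb := zer_bound N P f (fun a ha => (mem_filter.1 ha).2) (fun a ha => (mem_filter.1 ha).2)
    r hr.le ((n - n / r).choose (r - 1) * (n / r)) (by
      intro i hi hir
      have e : P.card = n - N.card := by omega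
      rw [e]
      exact level_bound n r i N.card hi hir (by omega))
  refine le_trans ?_ hb
  unfold ratCount
  rw [Set.ncard_eq_toFinset_card _ (finite_set A r)]
  refine le_trans ?_ (card_biUnion_le (s := range (r + 1)) (t := fun i => Zer N P f r i))
  refine card_le_card_of_injOn (fun B => (B.filter (fun a => f a < 0),
    B.filter (fun a => 0 < f a))) ?_ ?_
  · intro B hB
    rw [Finset.mem_coe, Set.Finite.mem_toFinset] at hB
    obtain ⟨hBA, hBr, q, hq⟩ := hB
    have hsplit : (B.filter (fun a => f a < 0)).card + (B.filter (fun a => 0 < f a)).card = r := by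
      rw [← hBr, ← card_union_of_disjoint]
      · congr 1
        ext a
        simp only [mem_union, mem_filter]
        constructor
        · rintro (h | h)
          · exact h.1
          · exact h.1
        · intro h
          rcases lt_or_gt_of_ne (hfA a (hBA h)) with h' | h'
          · exact Or.inl ⟨h, h'⟩
          · exact Or.inr ⟨h, h'⟩
      · rw [disjoint_left]
        intro a h1 h2
        have h3 := (mem_filter.1 h1).2
        have h4 := (mem_filter.1 h2).2
        exact absurd h3 (not_lt.2 h4.le)
    rw [Finset.mem_coe, mem_biUnion]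
    refine ⟨(B.filter (fun a => f a < 0)).card, mem_range.2 (by omega), ?_⟩
    unfold Zer
    rw [mem_filter, mem_lev]
    refine ⟨⟨⟨?_, rfl⟩, ?_, ?_⟩, ?_⟩
    · exact filter_subset_filter _ hBA
    · exact filter_subset_filter _ hBA
    · simp only
      omega
    · unfold V11121.Rat.val
      simp only
      have h1 : ∑ a ∈ B, f a = 0 := by
        rw [← map_sum, hq, hf0]
      have h2 : ∑ a ∈ B, f a = ∑ a ∈ B.filter (fun a => f a < 0), f a +
          ∑ a ∈ B.filter (fun a => 0 < f a), f a := by
        rw [← sum_filter_add_sum_filter_not B (fun a => f a < 0)]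
        congr 1
        refine sum_congr ?_ fun _ _ => rfl
        ext a
        simp only [mem_filter, not_lt]
        constructor
        · rintro ⟨h, h'⟩
          exact ⟨h, lt_of_le_of_ne h' (Ne.symm (hfA a (hBA h)))⟩
        · rintro ⟨h, h'⟩
          exact ⟨h, h'.le⟩
      rw [← h2, h1]
  · intro B hB B' hB' h
    rw [Finset.mem_coe, Set.Finite.mem_toFinset] at hB hB'
    simp only [Prod.mk.injEq] at h
    obtain ⟨h1, h2⟩ := h
    ext a
    constructor
    · intro ha
      rcases lt_or_gt_of_ne (hfA a (hB.1 ha)) with h' | h'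
      · have : a ∈ B'.filter (fun a => f a < 0) := by rw [← h1]; exact mem_filter.2 ⟨ha, h'⟩
        exact (mem_filter.1 this).1
      · have : a ∈ B'.filter (fun a => 0 < f a) := by rw [← h2]; exact mem_filter.2 ⟨ha, h'⟩
        exact (mem_filter.1 this).1
    · intro ha
      rcases lt_or_gt_of_ne (hfA a (hB'.1 ha)) with h' | h'
      · have : a ∈ B.filter (fun a => f a < 0) := by rw [h1]; exact mem_filter.2 ⟨ha, h'⟩
        exact (mem_filter.1 this).1
      · have : a ∈ B.filter (fun a => 0 < f a) := by rw [h2]; exact mem_filter.2 ⟨ha, h'⟩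
        exact (mem_filter.1 this).1

/-! ### The construction -/

/-- Elements of the coset `ℚ - (r-1)√2`. -/
noncomputable def ea (r k : ℕ) : ℝ := (k : ℝ) - ((r : ℝ) - 1) * √2

/-- Elements of the coset `ℚ + √2`. -/
noncomputable def eb (k : ℕ) : ℝ := (k : ℝ) + √2

theorem ea_inj (r : ℕ) : Function.Injective (ea r) := by
  intro k l h
  unfold ea at h
  have : (k : ℝ) = l := by linarith
  exact_mod_cast this

theorem eb_inj : Function.Injective eb := by
  intro k l h
  unfold eb at h
  have : (k : ℝ) = l := by linarith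
  exact_mod_cast this

theorem ea_ne_eb (r : ℕ) (hr : 1 < r) (k l : ℕ) : ea r k ≠ eb l := by
  intro h
  unfold ea eb at h
  have h1 : (r : ℝ) * √2 = (((k : ℤ) - l : ℤ) : ℝ) := by
    push_cast
    linarith
  have h2 : Irrational ((r : ℝ) * √2) := by
    have := irrational_sqrt_two.ratCast_mul (q := (r : ℚ)) (by
      have : (r : ℚ) ≠ 0 := by exact_mod_cast (by omega : r ≠ 0)
      exact this)
    simpa using this
  rw [h1] at h2
  exact h2.ne_int _ rfl

theorem ea_irr (r : ℕ) (hr : 1 < r) (k : ℕ) : Irrational (ea r k) := by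
  unfold ea
  have h : Irrational (((r : ℝ) - 1) * √2) := by
    have := irrational_sqrt_two.ratCast_mul (q := (r : ℚ) - 1) (by
      have : (1 : ℚ) < r := by exact_mod_cast hr
      intro h
      linarith)
    simpa using this
  simpa using h.ratCast_sub (k : ℚ)

theorem eb_irr (k : ℕ) : Irrational (eb k) := by
  unfold eb
  simpa using irrational_sqrt_two.ratCast_add (k : ℚ)

/-- The extremal set. -/
noncomputable def exA (n r : ℕ) : Finset ℝ :=
  (range (n / r)).image (ea r) ∪ (range (n - n / r)).image eb

theorem exA_card (n r : ℕ) (hr : 1 < r) : (exA n r).card = n := by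
  unfold exA
  rw [card_union_of_disjoint, card_image_of_injective _ (ea_inj r),
    card_image_of_injective _ eb_inj, card_range, card_range]
  · have := Nat.div_le_self n r
    omega
  · rw [disjoint_left]
    intro a h1 h2
    obtain ⟨k, _, hk⟩ := mem_image.1 h1
    obtain ⟨l, _, hl⟩ := mem_image.1 h2
    exact ea_ne_eb r hr k l (hk.trans hl.symm)

theorem exA_irr (n r : ℕ) (hr : 1 < r) : ∀ a ∈ exA n r, Irrational a := by
  intro a ha
  unfold exA at ha
  rw [mem_union, mem_image, mem_image] at ha
  rcases ha with ⟨k, _, rfl⟩ | ⟨k, _, rfl⟩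
  · exact ea_irr r hr k
  · exact eb_irr k

theorem lower (n r : ℕ) (hr : 1 < r) :
    (n - n / r).choose (r - 1) * (n / r) ≤ ratCount (exA n r) r := by
  classical
  unfold ratCount
  rw [Set.ncard_eq_toFinset_card _ (finite_set _ r)]
  have hc : (n - n / r).choose (r - 1) * (n / r) =
      (((range (n - n / r)).powersetCard (r - 1)) ×ˢ (range (n / r))).card := by
    rw [card_product, card_powersetCard, card_range, card_range]
  rw [hc]
  refine card_le_card_of_injOn (fun p => insert (ea r p.2) (p.1.image eb)) ?_ ?_
  · rintro ⟨T, k⟩ h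
    rw [Finset.mem_coe, mem_product, mem_powersetCard] at h
    simp only at h
    obtain ⟨⟨hT, hTc⟩, hk⟩ := h
    rw [Finset.mem_coe, Set.Finite.mem_toFinset]
    have hnot : ea r k ∉ T.image eb := by
      intro h
      obtain ⟨l, _, hl⟩ := mem_image.1 h
      exact ea_ne_eb r hr k l hl.symm
    refine ⟨?_, ?_, ?_⟩
    · intro a ha
      simp only [mem_insert] at ha
      unfold exA
      rw [mem_union]
      rcases ha with rfl | ha
      · exact Or.inl (mem_image_of_mem _ hk)
      · exact Or.inr (image_subset_image hT ha)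
    · simp only
      rw [card_insert_of_notMem hnot, card_image_of_injective _ eb_inj, hTc]
      omega
    · simp only
      refine ⟨(k : ℚ) + ∑ l ∈ T, (l : ℚ), ?_⟩
      rw [sum_insert hnot, sum_image (fun _ _ _ _ h => eb_inj h)]
      unfold ea eb
      rw [sum_add_distrib, sum_const, hTc]
      push_cast [Nat.cast_sub hr.le]
      simp only [nsmul_eq_mul]
      push_cast [Nat.cast_sub hr.le]
      ring
  · rintro ⟨T, k⟩ _ ⟨T', k'⟩ _ h
    simp only at h
    have hk : k = k' := by
      have : ea r k ∈ insert (ea r k') (T'.image eb) := by rw [← h]; exact mem_insert_self _ _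
      rcases mem_insert.1 this with h' | h'
      · exact ea_inj r h'
      · obtain ⟨l, _, hl⟩ := mem_image.1 h'
        exact absurd hl.symm (ea_ne_eb r hr k l)
    subst hk
    have hT : T = T' := by
      ext l
      constructor
      · intro hl
        have : eb l ∈ insert (ea r k) (T'.image eb) := by
          rw [← h]; exact mem_insert_of_mem (mem_image_of_mem _ hl)
        rcases mem_insert.1 this with h' | h'
        · exact absurd h'.symm (ea_ne_eb r hr k l)
        · obtain ⟨l', hl', e⟩ := mem_image.1 h'
          rwa [← eb_inj e]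
      · intro hl
        have : eb l ∈ insert (ea r k) (T.image eb) := by
          rw [h]; exact mem_insert_of_mem (mem_image_of_mem _ hl)
        rcases mem_insert.1 this with h' | h'
        · exact absurd h'.symm (ea_ne_eb r hr k l)
        · obtain ⟨l', hl', e⟩ := mem_image.1 h'
          rwa [← eb_inj e]
    rw [hT]

/-- For all `1 < r < n`, the maximum number of `r`-subsets with rational sum of a set of `n`
irrational numbers is `C(n - ⌊n/r⌋, r-1) ⌊n/r⌋`. -/
theorem result (n r : ℕ) (hr : 1 < r) (_hrn : r < n) :
    IsGreatest {c : ℕ | ∃ A : Finset ℝ, A.card = n ∧ (∀ a ∈ A, Irrational a) ∧ ratCount A r = c}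
      ((n - n / r).choose (r - 1) * (n / r)) := by
  constructor
  · refine ⟨exA n r, exA_card n r hr, exA_irr n r hr, le_antisymm ?_ (lower n r hr)⟩
    exact upper n r hr _ (exA_card n r hr) (exA_irr n r hr)
  · rintro c ⟨A, hAn, hA, rfl⟩
    exact upper n r hr A hAn hA

end Pool.Agent.Results.MP_604c02_co.RationalSums
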